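import Pool.Agent.W283.WS.Cross

set_option autoImplicit false

namespace WSep

open Finset

/-- removing vertices dominated by a common vertex `w` -/
theorem remove_dominated (T : Removal) {V : Type} [Fintype V] (adj : V → V → Prop)
    (hs : ∀ a b, adj a b → adj b a) (S : Set V) (w : V) (hw : w ∈ S) (P : Finset V)
    (hwP : w ∉ P) (hP : ∀ p ∈ P, p ∈ S ∧ adj p w ∧ ∀ u ∈ S, adj p u → u = w ∨ adj u w) :
    HE (FX adj S) (FX adj (S \ (P : Set V))) := by
  classical
  induction P using Finset.induction_on with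
  | empty =>
    have e : S \ ((∅ : Finset V) : Set V) = S := by simp
    rw [e]; exact HE.refl _
  | insert p P hp ih =>
    have h1 := ih (fun h => hwP (Finset.mem_insert_of_mem h))
      (fun q hq => hP q (Finset.mem_insert_of_mem hq))
    refine h1.trans ?_
    have e : S \ ((insert p P : Finset V) : Set V) = (S \ (P : Set V)) \ {p} := by
      ext x; simp only [Finset.coe_insert, Set.mem_sdiff, Set.mem_insert_iff, Finset.mem_coe,
        Set.mem_singleton_iff]; tauto
    rw [e]
    have hpS := hP p (Finset.mem_insert_self _ _)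
    apply T V adj (S \ (P : Set V)) p {w} hs
    · exact ⟨hpS.1, fun h => hp h⟩
    · rintro r rfl
      refine ⟨⟨hw, fun h => hwP (Finset.mem_insert_of_mem h)⟩, ?_, hpS.2.1⟩
      rintro rfl; exact hwP (Finset.mem_insert_self _ _)
    · rintro r rfl r' rfl; exact Or.inl rfl
    · intro F hF _
      exact ⟨w, rfl, fun u hu => hpS.2.2 u (hF u hu).1.1 (hF u hu).2.2⟩

namespace D2

variable {n : ℕ}

/-- `(a,b)` with `a<b` is a chord of the polygon `0,...,n-1`; `(i,i)` is the vertex `w_i` opposite
to the chord `(i,n-1)`. -/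
def adj (u v : Fin n × Fin n) : Prop :=
  (u.1.val < u.2.val → v.1.val < v.2.val →
    ¬ (u.1.val < v.1.val ∧ v.1.val < u.2.val ∧ u.2.val < v.2.val) ∧
    ¬ (v.1.val < u.1.val ∧ u.1.val < v.2.val ∧ v.2.val < u.2.val)) ∧
  (u.1.val = u.2.val → ¬ (v.1.val = u.1.val ∧ v.1.val < v.2.val ∧ v.2.val + 1 = n)) ∧
  (v.1.val = v.2.val → ¬ (u.1.val = v.1.val ∧ u.1.val < u.2.val ∧ u.2.val + 1 = n))

theorem adj_symm (u v : Fin n × Fin n) (h : adj u v) : adj v u := by
  unfold adj at *
  omega

/-- stage `j` -/
def St (n j : ℕ) : Set (Fin n × Fin n) :=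
  {v | (v.1.val = v.2.val ∧ 1 ≤ v.1.val ∧ v.1.val ≤ j) ∨
    (v.2.val + 1 = n ∧ 1 ≤ v.1.val ∧ v.1.val ≤ j) ∨
    (j ≤ v.1.val ∧ v.1.val + 2 ≤ v.2.val ∧ ¬ (v.1.val = j ∧ v.2.val + 1 = n))}

/-- chords at `j` removed at stage `j` -/
def Rj (n j : ℕ) : Set (Fin n × Fin n) :=
  {v | v.1.val = j ∧ j + 2 ≤ v.2.val ∧ v.2.val + 2 ≤ n}

theorem step (T : Removal) (j : ℕ) (hj : j + 4 ≤ n) :
    HE (FX (adj (n := n)) (St n j)) (FX (adj (n := n)) (St n (j + 1))) := by
  classical
  set w : Fin n × Fin n := (⟨j + 1, by omega⟩, ⟨j + 1, by omega⟩) with hwdef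
  have hw1 : w.1.val = j + 1 := rfl
  have hw2 : w.2.val = j + 1 := rfl
  set S : Set (Fin n × Fin n) := insert w (St n j) with hS
  have hwn : w ∉ St n j := by
    intro h
    unfold St at h
    simp only [Set.mem_ofPred_eq] at h
    omega
  have e1 : S \ {w} = St n j := by
    rw [hS]; ext x
    simp only [Set.mem_sdiff, Set.mem_insert_iff, Set.mem_singleton_iff]
    constructor
    · rintro ⟨h | h, h'⟩
      · exact absurd h h'
      · exact h
    · intro h
      exact ⟨Or.inr h, fun hx => hwn (hx ▸ h)⟩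
  -- adding `w`
  have A : HE (FX (adj (n := n)) S) (FX (adj (n := n)) (S \ {w})) := by
    apply T _ adj S w (Rj n j) adj_symm (Set.mem_insert _ _)
    · intro r hr
      have hr' : r.1.val = j ∧ j + 2 ≤ r.2.val ∧ r.2.val + 2 ≤ n := hr
      refine ⟨Set.mem_insert_of_mem _ ?_, ?_, ?_⟩
      · unfold St; simp only [Set.mem_ofPred_eq]; omega
      · rintro rfl; omega
      · unfold adj; omega
    · intro r hr r' hr'
      have h1 : r.1.val = j ∧ j + 2 ≤ r.2.val ∧ r.2.val + 2 ≤ n := hr
      have h2 : r'.1.val = j ∧ j + 2 ≤ r'.2.val ∧ r'.2.val + 2 ≤ n := hr'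
      right; unfold adj; omega
    · intro F hF hcl
      -- choose b
      set C : Finset ℕ := (F.filter (fun u => u.1.val = j + 1)).image (fun u => u.2.val) with hC
      have hFS : ∀ u ∈ F, u ∈ St n j := by
        intro u hu
        rcases (hF u hu).1 with h | h
        · exact absurd h (hF u hu).2.1
        · exact h
      have hFw : ∀ u ∈ F, adj w u := fun u hu => (hF u hu).2.2
      obtain ⟨b, hb1, hb2, hb3, hb4⟩ : ∃ b : ℕ, j + 2 ≤ b ∧ b + 2 ≤ n ∧
          (∀ u ∈ F, u.1.val = j + 1 → u.2.val ≤ b) ∧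
          (j + 3 ≤ b → ∃ u ∈ F, u.1.val = j + 1 ∧ u.2.val = b) := by
        by_cases hne : C.Nonempty
        · obtain ⟨u, hu, hub⟩ := Finset.mem_image.1 (C.max'_mem hne)
          rw [Finset.mem_filter] at hu
          have hs := hFS u hu.1
          have ha := hFw u hu.1
          have hb : u.2.val = C.max' hne := hub
          unfold St at hs; simp only [Set.mem_ofPred_eq] at hs
          unfold adj at ha
          refine ⟨C.max' hne, by omega, by omega, ?_, fun _ => ⟨u, hu.1, hu.2, hb⟩⟩
          intro v hv hv1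
          exact C.le_max' _ (Finset.mem_image.2 ⟨v, Finset.mem_filter.2 ⟨hv, hv1⟩, rfl⟩)
        · refine ⟨j + 2, le_refl _, by omega, ?_, fun h => by omega⟩
          intro u hu hu1
          exfalso; apply hne
          exact ⟨u.2.val, Finset.mem_image.2 ⟨u, Finset.mem_filter.2 ⟨hu, hu1⟩, rfl⟩⟩
      refine ⟨(⟨j, by omega⟩, ⟨b, by omega⟩), ⟨rfl, hb1, hb2⟩, ?_⟩
      intro u hu
      right
      have hs := hFS u hu
      have ha := hFw u hu
      have hm := hb3 u hu
      unfold St at hs; simp only [Set.mem_ofPred_eq] at hs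
      unfold adj at ha ⊢
      simp only
      by_cases hcase : j + 3 ≤ b
      · obtain ⟨v, hv, hv1, hv2⟩ := hb4 hcase
        rcases hcl u hu v hv with h | h
        · subst h; omega
        · unfold adj at h; omega
      · omega
  rw [e1] at A
  refine A.symm.trans ?_
  -- removing the chords at `j`
  have hPf : ∃ P : Finset (Fin n × Fin n), (P : Set _) = Rj n j :=
    ⟨(Rj n j).toFinite.toFinset, by simp⟩
  obtain ⟨P, hP⟩ := hPf
  have hPm : ∀ p, p ∈ P ↔ (p.1.val = j ∧ j + 2 ≤ p.2.val ∧ p.2.val + 2 ≤ n) := by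
    intro p
    rw [← Finset.mem_coe, hP]; rfl
  have B := remove_dominated T adj adj_symm S w (Set.mem_insert _ _) P
    (by rw [hPm]; omega) (by
      intro p hp
      rw [hPm] at hp
      refine ⟨Set.mem_insert_of_mem _ ?_, ?_, ?_⟩
      · unfold St; simp only [Set.mem_ofPred_eq]; omega
      · unfold adj; omega
      · intro u hu hpu
        rcases hu with h | h
        · exact Or.inl h
        · right
          unfold St at h; simp only [Set.mem_ofPred_eq] at h
          unfold adj at hpu ⊢
          omega)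
  have e2 : S \ (P : Set _) = St n (j + 1) := by
    rw [hP, hS]
    ext x
    simp only [Set.mem_sdiff, Set.mem_insert_iff, Rj, St, Set.mem_ofPred_eq]
    have hx : x = w ↔ (x.1.val = j + 1 ∧ x.2.val = j + 1) := by
      constructor
      · rintro rfl; exact ⟨rfl, rfl⟩
      · rintro ⟨h1, h2⟩; exact Prod.ext (Fin.ext h1) (Fin.ext h2)
    rw [hx]
    have := x.1.isLt
    have := x.2.isLt
    omega
  rw [e2] at B
  exact B

theorem steps (T : Removal) (j : ℕ) (hj : j + 3 ≤ n) :
    HE (FX (adj (n := n)) (St n 0)) (FX (adj (n := n)) (St n j)) := by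
  induction j with
  | zero => exact HE.refl _
  | succ j ih => exact (ih (by omega)).trans (step T j (by omega))

/-- the diagonals of the `n`-gon -/
def diagonals (n : ℕ) : Set (Fin n × Fin n) :=
  {v | v.1.val + 2 ≤ v.2.val ∧ ¬ (v.1.val = 0 ∧ v.2.val + 1 = n)}

/-- (S): the complex of pairwise non-crossing diagonals of the `n`-gon is a homotopy sphere. -/
theorem d2_sphere (T : Removal) (hn : 4 ≤ n) :
    HE (FX (adj (n := n)) (diagonals n))
      (Metric.sphere (0 : EuclideanSpace ℝ (Fin (n - 3))) 1) := by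
  have e0 : St n 0 = diagonals n := by
    ext x
    simp only [St, diagonals, Set.mem_ofPred_eq]
    omega
  rw [← e0]
  refine (steps T (n - 3) (by omega)).trans ?_
  let u : Fin (n - 3) → Fin n × Fin n := fun i => (⟨i.val + 1, by omega⟩, ⟨n - 1, by omega⟩)
  let w : Fin (n - 3) → Fin n × Fin n := fun i => (⟨i.val + 1, by omega⟩, ⟨i.val + 1, by omega⟩)
  have u1 : ∀ i, (u i).1.val = i.val + 1 := fun _ => rfl
  have u2 : ∀ i, (u i).2.val = n - 1 := fun _ => rfl
  have w1 : ∀ i, (w i).1.val = i.val + 1 := fun _ => rfl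
  have w2 : ∀ i, (w i).2.val = i.val + 1 := fun _ => rfl
  have hu : Function.Injective u := by
    intro i j h
    have := congrArg (fun p => p.1.val) h
    simp only [u1] at this
    exact Fin.ext (by omega)
  have hw : Function.Injective w := by
    intro i j h
    have := congrArg (fun p => p.1.val) h
    simp only [w1] at this
    exact Fin.ext (by omega)
  have huw : ∀ i j, u i ≠ w j := by
    intro i j h
    have := congrArg (fun p => p.2.val) h
    simp only [u2, w2] at this
    omega
  have e : St n (n - 3) = Set.range u ∪ Set.range w := by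
    ext x
    simp only [St, Set.mem_ofPred_eq, Set.mem_union, Set.mem_range]
    have h1 := x.1.isLt
    have h2 := x.2.isLt
    constructor
    · intro h
      by_cases hx : x.2.val + 1 = n
      · left
        exact ⟨⟨x.1.val - 1, by omega⟩, Prod.ext (Fin.ext (by rw [u1]; simp only; omega))
          (Fin.ext (by rw [u2]; omega))⟩
      · right
        exact ⟨⟨x.1.val - 1, by omega⟩, Prod.ext (Fin.ext (by rw [w1]; simp only; omega))
          (Fin.ext (by rw [w2]; simp only; omega))⟩
    · rintro (⟨i, rfl⟩ | ⟨i, rfl⟩)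
      · have h0 := i.isLt
        have a1 := u1 i
        have a2 := u2 i
        omega
      · have h0 := i.isLt
        have a1 := w1 i
        have a2 := w2 i
        omega
  rw [e]
  refine HE.of_homeo (crossHomeo u w hu hw huw adj ?_ ?_ ?_)
  · intro i j
    have h0 := i.isLt
    have h1 := j.isLt
    have a1 := u1 i
    have a2 := u2 i
    have a3 := u1 j
    have a4 := u2 j
    have b1 := w1 i
    have b2 := w2 i
    have b3 := w1 j
    have b4 := w2 j
    constructor
    · unfold adj; omega
    · unfold adj; omega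
  · intro i j hij
    have hij' : i.val ≠ j.val := fun h => hij (Fin.ext h)
    have h0 := i.isLt
    have h1 := j.isLt
    have a1 := u1 i
    have a2 := u2 i
    have b3 := w1 j
    have b4 := w2 j
    constructor
    · unfold adj; omega
    · unfold adj; omega
  · intro i
    have h0 := i.isLt
    have a1 := u1 i
    have a2 := u2 i
    have b1 := w1 i
    have b2 := w2 i
    unfold adj; omega

end D2

end WSep
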