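import Pool.Agent.W283.WS.Defs

set_option autoImplicit false

namespace WSep

open Finset

section cross

variable {V : Type*} [Fintype V] {m : ℕ}

/-- signed coordinates -/
noncomputable def sgn (u w : Fin m → V) (x : V → ℝ) : EuclideanSpace ℝ (Fin m) :=
  WithLp.toLp 2 (fun i => x (u i) - x (w i))

/-- 1-norm -/
noncomputable def n1 (y : EuclideanSpace ℝ (Fin m)) : ℝ := ∑ i, |y i|

noncomputable def back (u w : Fin m → V) (y : EuclideanSpace ℝ (Fin m)) : V → ℝ :=
  Function.extend (Sum.elim u w)
    (Sum.elim (fun i => max (y i) 0 / n1 y) (fun i => max (-y i) 0 / n1 y)) 0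

theorem n1_pos {y : EuclideanSpace ℝ (Fin m)} (hy : y ≠ 0) : 0 < n1 y := by
  unfold n1
  have h0 : 0 ≤ ∑ i, |y i| := Finset.sum_nonneg (fun i _ => abs_nonneg _)
  rcases h0.lt_or_eq with h | h
  · exact h
  · exfalso; apply hy
    have := (Finset.sum_eq_zero_iff_of_nonneg (fun i _ => abs_nonneg (y i))).1 h.symm
    ext i
    simpa using this i (Finset.mem_univ i)

theorem n1_smul (c : ℝ) (hc : 0 ≤ c) (y : EuclideanSpace ℝ (Fin m)) :
    n1 (c • y) = c * n1 y := by
  unfold n1
  rw [Finset.mul_sum]
  apply Finset.sum_congr rfl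
  intro i _
  simp [abs_mul, abs_of_nonneg hc]

variable (u w : Fin m → V) (hu : Function.Injective u) (hw : Function.Injective w)
  (huw : ∀ i j, u i ≠ w j) (adj : V → V → Prop)
  (h1 : ∀ i j, adj (u i) (u j) ∧ adj (w i) (w j)) (h2 : ∀ i j, i ≠ j → adj (u i) (w j) ∧ adj (w j) (u i))
  (h3 : ∀ i, ¬ adj (u i) (w i))

include hu hw huw in
theorem elim_inj : Function.Injective (Sum.elim u w) := by
  rintro (a | a) (b | b) h
  · simp only [Sum.elim_inl] at h; rw [hu h]
  · exact absurd h (huw a b)
  · exact absurd h.symm (huw b a)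
  · simp only [Sum.elim_inr] at h; rw [hw h]

include hu hw huw in
theorem sum_eq (x : V → ℝ) (hx : ∀ v, x v ≠ 0 → v ∈ Set.range u ∪ Set.range w) :
    ∑ v, x v = ∑ i, x (u i) + ∑ i, x (w i) := by
  have := Fintype.sum_of_injective (Sum.elim u w) (elim_inj u w hu hw huw)
    (fun s => x (Sum.elim u w s)) x (by
      intro v hv
      by_contra hne
      rcases hx v hne with ⟨i, hi⟩ | ⟨i, hi⟩
      · exact hv ⟨Sum.inl i, hi⟩
      · exact hv ⟨Sum.inr i, hi⟩) (fun s => rfl)
  rw [← this, Fintype.sum_sum_type]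
  rfl

include huw h3 in
theorem one_zero {x : V → ℝ} (hx : x ∈ FX adj (Set.range u ∪ Set.range w)) (i : Fin m) :
    x (u i) = 0 ∨ x (w i) = 0 := by
  by_contra hcon
  push Not at hcon
  rcases hx.2.2.2 (u i) (w i) hcon.1 hcon.2 with h | h
  · exact huw i i h
  · exact h3 i h

include hu hw huw h3 in
theorem n1_sgn {x : V → ℝ} (hx : x ∈ FX adj (Set.range u ∪ Set.range w)) :
    n1 (sgn u w x) = 1 := by
  have h := sum_eq u w hu hw huw x hx.2.2.1
  rw [hx.2.1] at h
  rw [h, ← Finset.sum_add_distrib]
  unfold n1 sgn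
  apply Finset.sum_congr rfl
  intro i _
  have a := hx.1 (u i)
  have b := hx.1 (w i)
  show |x (u i) - x (w i)| = _
  rcases one_zero u w huw adj h3 hx i with h | h
  · rw [h]; simp [abs_of_nonneg b]
  · rw [h]; simp [abs_of_nonneg a]

include hu hw huw h3 in
theorem sgn_ne {x : V → ℝ} (hx : x ∈ FX adj (Set.range u ∪ Set.range w)) :
    sgn u w x ≠ 0 := by
  intro h
  have := n1_sgn u w hu hw huw adj h3 hx
  rw [h] at this
  simp [n1] at this

include hu hw huw in
theorem back_u (y : EuclideanSpace ℝ (Fin m)) (i : Fin m) :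
    back u w y (u i) = max (y i) 0 / n1 y := by
  unfold back
  have := (elim_inj u w hu hw huw).extend_apply
    (Sum.elim (fun i => max (y i) 0 / n1 y) (fun i => max (-y i) 0 / n1 y)) 0 (Sum.inl i)
  simpa using this

include hu hw huw in
theorem back_w (y : EuclideanSpace ℝ (Fin m)) (i : Fin m) :
    back u w y (w i) = max (-y i) 0 / n1 y := by
  unfold back
  have := (elim_inj u w hu hw huw).extend_apply
    (Sum.elim (fun i => max (y i) 0 / n1 y) (fun i => max (-y i) 0 / n1 y)) 0 (Sum.inr i)
  simpa using this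

theorem back_other (y : EuclideanSpace ℝ (Fin m)) (v : V)
    (hv : v ∉ Set.range u ∪ Set.range w) : back u w y v = 0 := by
  unfold back
  rw [Function.extend_apply']
  · rfl
  · rintro ⟨s | s, hs⟩
    · exact hv (Or.inl ⟨s, hs⟩)
    · exact hv (Or.inr ⟨s, hs⟩)

include hu hw huw h1 h2 in
theorem back_mem {y : EuclideanSpace ℝ (Fin m)} (hy : y ≠ 0) :
    back u w y ∈ FX adj (Set.range u ∪ Set.range w) := by
  have hp := n1_pos hy
  have hsupp : ∀ v, back u w y v ≠ 0 → v ∈ Set.range u ∪ Set.range w := by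
    intro v hv
    by_contra hcon
    exact hv (back_other u w y v hcon)
  refine ⟨?_, ?_, hsupp, ?_⟩
  · intro v
    by_cases hv : v ∈ Set.range u ∪ Set.range w
    · rcases hv with ⟨i, rfl⟩ | ⟨i, rfl⟩
      · rw [back_u u w hu hw huw]; exact div_nonneg (le_max_right _ _) hp.le
      · rw [back_w u w hu hw huw]; exact div_nonneg (le_max_right _ _) hp.le
    · rw [back_other u w y v hv]
  · rw [sum_eq u w hu hw huw _ hsupp, ← Finset.sum_add_distrib]
    have : ∀ i, back u w y (u i) + back u w y (w i) = |y i| / n1 y := by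
      intro i
      rw [back_u u w hu hw huw, back_w u w hu hw huw, ← add_div]
      congr 1
      rcases le_total 0 (y i) with h | h
      · rw [max_eq_left h, max_eq_right (by linarith), abs_of_nonneg h, add_zero]
      · rw [max_eq_right h, max_eq_left (by linarith), abs_of_nonpos h, zero_add]
    rw [Finset.sum_congr rfl (fun i _ => this i), ← Finset.sum_div]
    exact div_self hp.ne'
  · intro a b ha hb
    rcases hsupp a ha with ⟨i, rfl⟩ | ⟨i, rfl⟩ <;> rcases hsupp b hb with ⟨j, rfl⟩ | ⟨j, rfl⟩
    · exact Or.inr (h1 i j).1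
    · by_cases hij : i = j
      · subst hij
        exfalso
        rw [back_u u w hu hw huw] at ha
        rw [back_w u w hu hw huw] at hb
        rcases le_total 0 (y i) with h | h
        · apply hb; rw [max_eq_right (by linarith)]; simp
        · apply ha; rw [max_eq_right h]; simp
      · exact Or.inr (h2 i j hij).1
    · by_cases hij : i = j
      · subst hij
        exfalso
        rw [back_w u w hu hw huw] at ha
        rw [back_u u w hu hw huw] at hb
        rcases le_total 0 (y i) with h | h
        · apply ha; rw [max_eq_right (by linarith)]; simp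
        · apply hb; rw [max_eq_right h]; simp
      · exact Or.inr (h2 j i (Ne.symm hij)).2
    · exact Or.inr (h1 i j).2

theorem sgn_cont : Continuous (sgn u w) := by
  unfold sgn
  apply (PiLp.continuous_toLp 2 (fun _ : Fin m => ℝ)).comp
  fun_prop

theorem n1_cont : Continuous (n1 (m := m)) := by
  unfold n1
  fun_prop

include hu hw huw in
theorem back_cont : ContinuousOn (back u w) {y | y ≠ 0} := by
  rw [continuousOn_pi]
  intro v
  by_cases hv : v ∈ Set.range u ∪ Set.range w
  · rcases hv with ⟨i, rfl⟩ | ⟨i, rfl⟩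
    · simp only [back_u u w hu hw huw]
      apply ContinuousOn.div
      · fun_prop
      · exact n1_cont.continuousOn
      · intro y hy; exact (n1_pos hy).ne'
    · simp only [back_w u w hu hw huw]
      apply ContinuousOn.div
      · fun_prop
      · exact n1_cont.continuousOn
      · intro y hy; exact (n1_pos hy).ne'
  · simp only [back_other u w _ v hv]
    exact continuousOn_const

theorem sphere_ne {y : EuclideanSpace ℝ (Fin m)} (hy : y ∈ Metric.sphere (0 : EuclideanSpace ℝ (Fin m)) 1) :
    y ≠ 0 := by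
  intro h; rw [h] at hy; simp at hy

/-- the boundary of the cross polytope is a sphere -/
noncomputable def crossHomeo :
    FX adj (Set.range u ∪ Set.range w) ≃ₜ Metric.sphere (0 : EuclideanSpace ℝ (Fin m)) 1 where
  toFun x := ⟨(‖sgn u w x.1‖)⁻¹ • sgn u w x.1, by
    have := norm_ne_zero_iff.2 (sgn_ne u w hu hw huw adj h3 x.2)
    rw [mem_sphere_zero_iff_norm, norm_smul, norm_inv, norm_norm]
    exact inv_mul_cancel₀ this⟩
  invFun y := ⟨back u w y.1, back_mem u w hu hw huw adj h1 h2 (sphere_ne y.2)⟩
  left_inv := by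
    rintro ⟨x, hx⟩
    apply Subtype.ext
    have hne := norm_ne_zero_iff.2 (sgn_ne u w hu hw huw adj h3 hx)
    have hpos : 0 < ‖sgn u w x‖⁻¹ := inv_pos.2 (lt_of_le_of_ne (norm_nonneg _) hne.symm)
    have hn1 : n1 ((‖sgn u w x‖)⁻¹ • sgn u w x) = ‖sgn u w x‖⁻¹ := by
      rw [n1_smul _ hpos.le, n1_sgn u w hu hw huw adj h3 hx, mul_one]
    funext v
    by_cases hv : v ∈ Set.range u ∪ Set.range w
    · rcases hv with ⟨i, rfl⟩ | ⟨i, rfl⟩
      · show back u w ((‖sgn u w x‖)⁻¹ • sgn u w x) (u i) = x (u i)
        rw [back_u u w hu hw huw, hn1]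
        have e : ((‖sgn u w x‖)⁻¹ • sgn u w x) i = ‖sgn u w x‖⁻¹ * (x (u i) - x (w i)) := rfl
        rw [e]
        have a := hx.1 (u i)
        have b := hx.1 (w i)
        rw [← mul_zero ‖sgn u w x‖⁻¹, ← mul_max_of_nonneg _ _ hpos.le,
          mul_div_cancel_left₀ _ hpos.ne']
        rcases one_zero u w huw adj h3 hx i with h | h
        · rw [h]; simp [b]
        · rw [h]; simp [a]
      · show back u w ((‖sgn u w x‖)⁻¹ • sgn u w x) (w i) = x (w i)
        rw [back_w u w hu hw huw, hn1]
        have e : -((‖sgn u w x‖)⁻¹ • sgn u w x) i = ‖sgn u w x‖⁻¹ * (x (w i) - x (u i)) := by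
          have : ((‖sgn u w x‖)⁻¹ • sgn u w x) i = ‖sgn u w x‖⁻¹ * (x (u i) - x (w i)) := rfl
          rw [this]; ring
        rw [e]
        have a := hx.1 (u i)
        have b := hx.1 (w i)
        rw [← mul_zero ‖sgn u w x‖⁻¹, ← mul_max_of_nonneg _ _ hpos.le,
          mul_div_cancel_left₀ _ hpos.ne']
        rcases one_zero u w huw adj h3 hx i with h | h
        · rw [h]; simp [b]
        · rw [h]; simp [a]
    · show back u w ((‖sgn u w x‖)⁻¹ • sgn u w x) v = x v
      rw [back_other u w _ v hv]
      by_contra hcon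
      exact hv (hx.2.2.1 v (Ne.symm hcon))
  right_inv := by
    rintro ⟨y, hy⟩
    apply Subtype.ext
    have hy0 := sphere_ne hy
    have hp := n1_pos hy0
    have e : sgn u w (back u w y) = (n1 y)⁻¹ • y := by
      ext i
      show back u w y (u i) - back u w y (w i) = (n1 y)⁻¹ * y i
      rw [back_u u w hu hw huw, back_w u w hu hw huw, ← sub_div, div_eq_inv_mul]
      congr 1
      rcases le_total 0 (y i) with h | h
      · rw [max_eq_left h, max_eq_right (by linarith), sub_zero]
      · rw [max_eq_right h, max_eq_left (by linarith)]; ring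
    show (‖sgn u w (back u w y)‖)⁻¹ • sgn u w (back u w y) = y
    rw [e, norm_smul, mem_sphere_zero_iff_norm.1 hy, mul_one, smul_smul]
    have : ‖(n1 y)⁻¹‖ = (n1 y)⁻¹ := by
      rw [Real.norm_eq_abs, abs_of_pos (inv_pos.2 hp)]
    rw [this, inv_inv, mul_inv_cancel₀ hp.ne', one_smul]
  continuous_toFun := by
    apply Continuous.subtype_mk
    have c : Continuous (fun x : FX adj (Set.range u ∪ Set.range w) => sgn u w x.1) :=
      (sgn_cont u w).comp continuous_subtype_val
    exact Continuous.smul (Continuous.inv₀ (continuous_norm.comp c) (fun x =>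
      norm_ne_zero_iff.2 (sgn_ne u w hu hw huw adj h3 x.2))) c
  continuous_invFun := by
    apply Continuous.subtype_mk
    exact (back_cont u w hu hw huw).comp_continuous continuous_subtype_val
      (fun y => sphere_ne y.2)

end cross

end WSep
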