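import Mathlib

set_option autoImplicit false

namespace WSep

/-- geometric realisation of the flag complex of the graph `adj` on the vertex set `S`
(`adj` need not be reflexive). -/
def FX {V : Type*} [Fintype V] (adj : V → V → Prop) (S : Set V) : Set (V → ℝ) :=
  {x | (∀ v, 0 ≤ x v) ∧ ∑ v, x v = 1 ∧ (∀ v, x v ≠ 0 → v ∈ S) ∧
    ∀ u v, x u ≠ 0 → x v ≠ 0 → u = v ∨ adj u v}

/-- homotopy equivalent -/
def HE (A B : Type*) [TopologicalSpace A] [TopologicalSpace B] : Prop :=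
  Nonempty (ContinuousMap.HomotopyEquiv A B)

theorem HE.refl (A : Type*) [TopologicalSpace A] : HE A A :=
  ⟨ContinuousMap.HomotopyEquiv.refl A⟩

theorem HE.symm {A B : Type*} [TopologicalSpace A] [TopologicalSpace B] (h : HE A B) : HE B A :=
  ⟨h.some.symm⟩

theorem HE.trans {A B C : Type*} [TopologicalSpace A] [TopologicalSpace B] [TopologicalSpace C]
    (h : HE A B) (h' : HE B C) : HE A C :=
  ⟨h.some.trans h'.some⟩

theorem HE.of_homeo {A B : Type*} [TopologicalSpace A] [TopologicalSpace B] (e : A ≃ₜ B) :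
    HE A B :=
  ⟨e.toHomotopyEquiv⟩

/-- (T) the removal lemma, as a Prop, for symmetric `adj`. -/
def Removal : Prop :=
  ∀ (V : Type) [Fintype V] (adj : V → V → Prop) (S : Set V) (v : V) (R : Set V),
    (∀ a b, adj a b → adj b a) → v ∈ S →
    (∀ r ∈ R, r ∈ S ∧ r ≠ v ∧ adj v r) →
    (∀ r ∈ R, ∀ r' ∈ R, r = r' ∨ adj r r') →
    (∀ F : Finset V, (∀ u ∈ F, u ∈ S ∧ u ≠ v ∧ adj v u) →
      (∀ u ∈ F, ∀ w ∈ F, u = w ∨ adj u w) → ∃ r ∈ R, ∀ u ∈ F, u = r ∨ adj u r) →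
    HE (FX adj S) (FX adj (S \ {v}))

end WSep
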